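import Mathlib
import Pool.Agent.Helper83.VF.Swap
import Pool.Agent.Helper83.VF.Surf
import Pool.Agent.Helper26.VC.Ext

/-!
# Correspondences on the powers of Fermat hypersurfaces

Let `X` be the Fermat hypersurface of degree `m` in `P^(r-1)` and `G` the group of the
automorphisms of `X ^ s` generated by the multiplications of coordinates by `m`-th roots of unity
and the permutations of the factors. Elements of the group ring `ℤ[G]` are correspondences, the
integral combinations of graphs of elements of `G`.
-/

set_option linter.unusedSectionVars false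

namespace VG

open VC VP VF Function

universe u

variable {k : Type u} [Field k] {m : ℕ} [NeZero m] {r s : ℕ}

lemma isMono_root (g : Fin r → rootsOfUnity m k) :
    IsMono m (id : Fin r → Fin r) (fun i => ((g i : kˣ) : k)) := by
  intro j
  simp only [id, Finset.filter_eq', Finset.mem_univ, if_true, Finset.sum_singleton]
  have h := (g j).2
  rw [mem_rootsOfUnity] at h
  rw [← Units.val_pow_eq_pow_val, h, Units.val_one]

/-- The automorphism `[x_1 : … : x_r] ↦ [g_1 x_1 : … : g_r x_r]` of the Fermat hypersurface, on
points. -/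
noncomputable def scale (g : Fin r → rootsOfUnity m k) : FermatPt k r m → FermatPt k r m :=
  mono (isMono_root g)

/-- An automorphism of `X ^ s`: a permutation `σ` of the factors and multiplications of the
coordinates by roots of unity; see `autPt`. -/
abbrev Aut (k : Type u) [Field k] (m r s : ℕ) : Type u :=
  Equiv.Perm (Fin s) × (Fin s → Fin r → rootsOfUnity m k)

/-- The automorphism `h = (σ, g)` maps `(p_1, …, p_s)` to `(g_1 p_(σ 1), …, g_s p_(σ s))`. -/
noncomputable def autPt (h : Aut k m r s) (p : Fin s → FermatPt k r m) : Fin s → FermatPt k r m :=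
  fun i => scale (h.2 i) (p (h.1 i))

/-- The action `Z_*` on zero-cycles of the correspondence `Z = ∑ n_h Γ_h`, the sum of the
pushforwards under `h` with coefficients `n_h`. -/
noncomputable def actCycle (Z : Aut k m r s →₀ ℤ) (z : (Fin s → FermatPt k r m) →₀ ℤ) :
    (Fin s → FermatPt k r m) →₀ ℤ :=
  Z.sum fun h n => n • Finsupp.mapDomain (autPt h) z

/-- The action `Z^*` on the holomorphic forms of highest degree of `X ^ s` of the correspondence
`Z = ∑ n_h Γ_h`. The space of these forms is the `s`-th tensor power of `H^0(X, Ω^(r-2))`, and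
the latter space has as a basis the residues `ω_β` of `x^β Ω / (x_1 ⋯ x_r (x_1^m + ⋯ + x_r^m))` for
`β_1 + ⋯ + β_r = m`, all `β_l ≥ 1`. The tensor product of the `ω_(β_i)` is represented by `β`. It
is mapped by `(σ, g)^*` to `sign(σ)^r ∏ (g_i)_l ^ (β_i)_l` times the tensor product of the
`ω_(β_(σ⁻¹ i))`. -/
noncomputable def actForm (Z : Aut k m r s →₀ ℤ) (β : Fin s → Fin r → ℕ) :
    (Fin s → Fin r → ℕ) →₀ k :=
  Z.sum fun h n => Finsupp.single (fun i => β (h.1⁻¹ i))
    ((n : k) * ((Equiv.Perm.sign h.1 : ℤˣ) : ℤ) ^ r *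
      ∏ i, ∏ l, ((h.2 i l : kˣ) : k) ^ β i l)

/-- The function on `X ^ s` is an eigenfunction with character `χ i` on the factor `i`. -/
def EquiS (E : AddChar (ZMod m) k) (χ : Fin s → Fin r → ZMod m)
    (Φ : (Fin s → FermatPt k r m) → k) : Prop :=
  ∀ (p : Fin s → FermatPt k r m) (i : Fin s) (x : Fin r → ZMod m),
    Φ (update p i (tw E x (p i))) = E (∑ j, χ i j * x j) * Φ p

/-- All `χ i l` are nonzero and for some unit `t` the residues of `t χ i l` have the sum `m` for
all `i`. -/
def TopType (χ : Fin s → Fin r → ZMod m) : Prop :=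
  (∀ i l, χ i l ≠ 0) ∧ ∃ t : ZMod m, IsUnit t ∧ ∀ i, ∑ l, (t * χ i l).val = m

end VG
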