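import Mathlib

/-!
# Trees in bipartite graphs and determinants
-/

namespace VG

open Function

section tree

variable {ι : Type*} [Fintype ι] [DecidableEq ι]

/-- The columns reached after `n` steps. -/
def reach (N : ι → Finset (Option ι)) (μ : ι → Option ι) : ℕ → Finset (Option ι)
  | 0 => {none}
  | n + 1 => reach N μ n ∪ (Finset.univ.filter (fun i => ¬ Disjoint (N i) (reach N μ n))).image μ

lemma none_mem_reach (N : ι → Finset (Option ι)) (μ : ι → Option ι) (n : ℕ) :
    none ∈ reach N μ n := by
  induction n with
  | zero => exact Finset.mem_singleton_self _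
  | succ n ih => exact Finset.mem_union_left _ ih

/-- Rooted spanning trees of columns, one edge for each row. -/
theorem exists_tree (N : ι → Finset (Option ι))
    (hN : ∀ R : Finset ι, R.Nonempty → R.card + 1 ≤ (R.biUnion N).card) :
    ∃ (μ a : ι → Option ι) (d : Option ι → ℕ), (∀ i, μ i ∈ N i) ∧ (∀ i, a i ∈ N i) ∧
      (∀ c, c ≠ none → ∃ i, μ i = c) ∧ ∀ i, d (a i) < d (μ i) := by
  classical
  obtain ⟨μ, hμ, hμN⟩ := (Finset.all_card_le_biUnion_card_iff_exists_injective
    (fun i => (N i).erase none)).mp (by
      intro R
      by_cases hR : R.Nonempty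
      · have h1 := hN R hR
        have h2 : R.biUnion (fun i => (N i).erase none) = (R.biUnion N).erase none := by
          ext c
          simp only [Finset.mem_biUnion, Finset.mem_erase]
          constructor
          · rintro ⟨i, hi, h, h'⟩
            exact ⟨h, i, hi, h'⟩
          · rintro ⟨h, i, hi, h'⟩
            exact ⟨i, hi, h, h'⟩
        rw [h2]
        have h3 := Finset.pred_card_le_card_erase (s := R.biUnion N) (a := none)
        omega
      · rw [Finset.not_nonempty_iff_eq_empty.mp hR]
        exact Nat.zero_le _)
  have hμ1 : ∀ i, μ i ∈ N i := fun i => Finset.mem_of_mem_erase (hμN i)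
  have hμ0 : ∀ i, μ i ≠ none := fun i => Finset.ne_of_mem_erase (hμN i)
  have hsurj : ∀ c, c ≠ none → ∃ i, μ i = c := by
    have h1 : Finset.univ.image μ = (Finset.univ : Finset (Option ι)).erase none := by
      apply Finset.eq_of_subset_of_card_le
      · intro c hc
        obtain ⟨i, -, rfl⟩ := Finset.mem_image.mp hc
        exact Finset.mem_erase.mpr ⟨hμ0 i, Finset.mem_univ _⟩
      · rw [Finset.card_image_of_injective _ hμ, Finset.card_erase_of_mem (Finset.mem_univ _),
          Finset.card_univ, Finset.card_univ, Fintype.card_option]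
        omega
    intro c hc
    have h2 : c ∈ Finset.univ.image μ := by
      rw [h1]; exact Finset.mem_erase.mpr ⟨hc, Finset.mem_univ _⟩
    obtain ⟨i, -, hi⟩ := Finset.mem_image.mp h2
    exact ⟨i, hi⟩
  set S := reach N μ with hS
  have hgrow : ∀ n, S n ≠ Finset.univ → (S n).card < (S (n + 1)).card := by
    intro n hn
    set R : Finset ι := Finset.univ.filter (fun i => μ i ∉ S n) with hR
    have hcompl : (S n)ᶜ = R.image μ := by
      ext c
      rw [Finset.mem_compl, Finset.mem_image]
      constructor
      · intro hc
        have hc0 : c ≠ none := by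
          rintro rfl
          exact hc (none_mem_reach N μ n)
        obtain ⟨i, rfl⟩ := hsurj c hc0
        exact ⟨i, Finset.mem_filter.mpr ⟨Finset.mem_univ _, hc⟩, rfl⟩
      · rintro ⟨i, hi, rfl⟩
        exact (Finset.mem_filter.mp hi).2
    have hRne : R.Nonempty := by
      rw [← Finset.image_nonempty (f := μ), ← hcompl, Finset.nonempty_iff_ne_empty]
      intro h0
      rw [Finset.compl_eq_empty_iff] at h0
      exact hn h0
    have hex : ∃ i ∈ R, ¬ Disjoint (N i) (S n) := by
      by_contra hcon
      push Not at hcon
      have h1 : R.biUnion N ⊆ (S n)ᶜ := by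
        intro c hc
        obtain ⟨i, hi, hi'⟩ := Finset.mem_biUnion.mp hc
        rw [Finset.mem_compl]
        exact fun h => Finset.disjoint_left.mp (hcon i hi) hi' h
      have h2 := Finset.card_le_card h1
      rw [hcompl, Finset.card_image_of_injective _ hμ] at h2
      have := hN R hRne
      omega
    obtain ⟨i, hi, hi'⟩ := hex
    apply Finset.card_lt_card
    refine ⟨Finset.subset_union_left, fun h => ?_⟩
    have h1 : μ i ∈ S (n + 1) :=
      Finset.mem_union_right _ (Finset.mem_image_of_mem _
        (Finset.mem_filter.mpr ⟨Finset.mem_univ _, hi'⟩))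
    exact (Finset.mem_filter.mp hi).2 (h h1)
  have hcard : ∀ n, n + 1 ≤ (S n).card ∨ S n = Finset.univ := by
    intro n
    induction n with
    | zero => left; simp [hS, reach]
    | succ n ih =>
      by_cases h : S n = Finset.univ
      · right
        rw [Finset.eq_univ_iff_forall]
        intro c
        exact Finset.mem_union_left _ (by rw [← hS, h]; exact Finset.mem_univ c)
      · left
        have := hgrow n h
        rcases ih with ih | ih
        · omega
        · exact absurd ih h
  have huniv : S (Fintype.card (Option ι)) = Finset.univ := by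
    rcases hcard (Fintype.card (Option ι)) with h | h
    · have := Finset.card_le_univ (S (Fintype.card (Option ι)))
      omega
    · exact h
  have hall : ∀ c, ∃ n, c ∈ S n := fun c =>
    ⟨Fintype.card (Option ι), by rw [huniv]; exact Finset.mem_univ c⟩
  have hstep : ∀ i, ∃ c ∈ N i, Nat.find (hall c) < Nat.find (hall (μ i)) := by
    intro i
    have h1 := Nat.find_spec (hall (μ i))
    have h2 : Nat.find (hall (μ i)) ≠ 0 := by
      intro h0
      rw [h0] at h1
      exact hμ0 i (Finset.mem_singleton.mp h1)
    obtain ⟨n, hn⟩ := Nat.exists_eq_succ_of_ne_zero h2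
    have h3 : μ i ∉ S n := Nat.find_min (hall (μ i)) (by omega)
    rw [hn] at h1
    rcases Finset.mem_union.mp h1 with h4 | h4
    · exact absurd h4 h3
    · obtain ⟨j, hj, hj'⟩ := Finset.mem_image.mp h4
      have := hμ hj'
      subst this
      obtain ⟨c, hc, hc'⟩ := Finset.not_disjoint_iff.mp (Finset.mem_filter.mp hj).2
      refine ⟨c, hc, ?_⟩
      rw [hn]
      exact Nat.lt_succ_of_le (Nat.find_min' _ hc')
  choose a ha ha' using hstep
  exact ⟨μ, a, fun c => Nat.find (hall c), hμ1, ha, hsurj, ha'⟩

end tree

section det

variable {ι : Type*} [Fintype ι] [DecidableEq ι] {R : Type*} [CommRing R]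

/-- The square matrix with first row `v` and other rows given by `M`. -/
def stack (v : Option ι → R) (M : ι → Option ι → R) : Matrix (Option ι) (Option ι) R :=
  fun o c => o.elim (v c) (fun i => M i c)

/-- The signed maximal minors of `M`. -/
def lam (M : ι → Option ι → R) (c : Option ι) : R := (stack (Pi.single c 1) M).det

lemma stack_eq (v : Option ι → R) (M : ι → Option ι → R) :
    stack v M = (stack 0 M).updateRow none v := by
  ext o c
  cases o with
  | none => simp [stack]
  | some i => rw [Matrix.updateRow_ne (by simp)]; rfl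

lemma sum_lam (v : Option ι → R) (M : ι → Option ι → R) :
    ∑ c, v c * lam M c = (stack v M).det := by
  let L : (Option ι → R) →ₗ[R] R :=
    (Matrix.detRowAlternating (R := R) (n := Option ι)).toMultilinearMap.toLinearMap
      (stack 0 M) none
  have hL : ∀ v, L v = (stack v M).det := by
    intro v
    rw [stack_eq v M]
    rfl
  rw [← hL, LinearMap.pi_apply_eq_sum_univ]
  apply Finset.sum_congr rfl
  intro c _
  rw [smul_eq_mul, hL]
  unfold lam
  congr 3
  funext j
  rw [Pi.single_apply]
  simp [eq_comm]

lemma row_lam (M : ι → Option ι → R) (i : ι) : ∑ c, M i c * lam M c = 0 := by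
  rw [sum_lam]
  apply Matrix.det_zero_of_row_eq (i := none) (j := some i) (by simp)
  funext c
  rfl

lemma lam_map {S : Type*} [CommRing S] (f : R →+* S) (M : ι → Option ι → R) (c : Option ι) :
    f (lam M c) = lam (fun i c => f (M i c)) c := by
  unfold lam
  rw [RingHom.map_det]
  congr 1
  ext o c'
  cases o with
  | none =>
    simp only [RingHom.mapMatrix_apply, Matrix.map_apply, stack, Option.elim]
    by_cases h : c' = c
    · subst h; simp
    · simp [Pi.single_eq_of_ne h]
  | some i => simp [stack]

lemma lam_const [IsDomain R] {M : ι → Option ι → R} (h : ∀ i, ∑ c, M i c = 0)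
    (c c' : Option ι) : lam M c = lam M c' := by
  have h1 : (stack (Pi.single c 1 - Pi.single c' 1) M).det = 0 := by
    rw [← Matrix.exists_mulVec_eq_zero_iff]
    refine ⟨fun _ => 1, ?_, ?_⟩
    · intro h0
      exact one_ne_zero (congrFun h0 none)
    · funext o
      cases o with
      | none => simp [Matrix.mulVec, dotProduct, stack]
      | some i => simpa [Matrix.mulVec, dotProduct, stack] using h i
  have h2 := sum_lam (Pi.single c 1 - Pi.single c' 1) M
  rw [h1] at h2
  simp only [Pi.sub_apply, sub_mul, Finset.sum_sub_distrib] at h2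
  have h3 : ∀ d : Option ι, ∑ x, (Pi.single d 1 : Option ι → R) x * lam M x = lam M d := by
    intro d
    rw [Finset.sum_eq_single d]
    · simp
    · intro b _ hb
      rw [Pi.single_eq_of_ne hb, zero_mul]
    · intro h; exact absurd (Finset.mem_univ d) h
  rw [h3, h3, sub_eq_zero] at h2
  exact h2

lemma lam_tree [IsDomain R] {M : ι → Option ι → R} {μ a : ι → Option ι} {d : Option ι → ℕ}
    (hμ : ∀ c, c ≠ none → ∃ i, μ i = c) (hd : ∀ i, d (a i) < d (μ i))
    (hM : ∀ i (v : Option ι → R), ∑ c, M i c * v c = v (μ i) - v (a i)) : lam M none ≠ 0 := by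
  intro h
  unfold lam at h
  rw [← Matrix.exists_mulVec_eq_zero_iff] at h
  obtain ⟨v, hv, hv'⟩ := h
  apply hv
  have h0 : v none = 0 := by
    have := congrFun hv' none
    simpa [Matrix.mulVec, dotProduct, stack] using this
  have h1 : ∀ i, v (μ i) = v (a i) := by
    intro i
    have h2 := congrFun hv' (some i)
    have h3 : ∑ c, M i c * v c = 0 := h2
    rw [hM] at h3
    exact sub_eq_zero.mp h3
  have key : ∀ n c, d c = n → v c = 0 := by
    intro n
    induction n using Nat.strong_induction_on with
    | _ n ih =>
      intro c hc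
      by_cases hc0 : c = none
      · rw [hc0, h0]
      · obtain ⟨i, rfl⟩ := hμ c hc0
        rw [h1 i]
        exact ih _ (hc ▸ hd i) _ rfl
  funext c
  exact key _ c rfl

end det

end VG
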