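import Mathlib
import Pool.Agent.Helper83.VG.Defs
import Pool.Agent.Helper83.VG.Tree

/-!
# The torus theorem, the generic case
-/

set_option linter.unusedSectionVars false

namespace VG

open VC VP VF Function Polynomial

universe u

section approx

variable {k : Type u} [Field k]

/-- Approximate roots of polynomials. -/
lemma exists_approx [CharZero k] {m : ℕ} (hm : m ≠ 0) (A : k[X]) {a : k} (ha : a ≠ 0)
    (h : a ^ m = A.eval 0) (N : ℕ) : ∃ ρ : k[X], ρ.eval 0 = a ∧ X ^ (N + 1) ∣ ρ ^ m - A := by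
  induction N with
  | zero =>
    refine ⟨C a, eval_C, ?_⟩
    rw [zero_add, pow_one, X_dvd_iff, coeff_zero_eq_eval_zero]
    simp [h]
  | succ N ih =>
    obtain ⟨ρ, hρ, B, hB⟩ := ih
    have hmk : (m : k) ≠ 0 := Nat.cast_ne_zero.mpr hm
    set c : k := -(B.eval 0) / (m * a ^ (m - 1)) with hc
    refine ⟨ρ + C c * X ^ (N + 1), ?_, ?_⟩
    · rw [eval_add, hρ]; simp
    · obtain ⟨K, hK⟩ := Polynomial.powAddExpansion ρ (C c * X ^ (N + 1)) m
      have h1 : X ∣ B + (m : k[X]) * ρ ^ (m - 1) * C c := by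
        rw [X_dvd_iff, coeff_zero_eq_eval_zero]
        simp only [eval_add, eval_mul, eval_natCast, eval_pow, hρ, eval_C]
        rw [hc]
        have := mul_ne_zero hmk (pow_ne_zero (m - 1) ha)
        field_simp
        ring
      obtain ⟨D, hD⟩ := h1
      refine ⟨D + K * C c ^ 2 * X ^ N, ?_⟩
      rw [hK]
      have e : ρ ^ m = A + X ^ (N + 1) * B := by linear_combination hB
      rw [e]
      linear_combination X ^ (N + 1) * hD

end approx

variable {k : Type u} [Field k] [IsAlgClosed k] [CharZero k] {m : ℕ} [NeZero m]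
  {E : AddChar (ZMod m) k} {r : ℕ} {ι : Type} [Fintype ι] [DecidableEq ι]

/-- The power of a variety with factors indexed by `ι`. -/
abbrev vpi (X : Variety k) (ι : Type) : Variety k where
  Pt := ι → X.Pt
  Mor K _ _ := ι → X.Mor K
  eval hK c v := fun i => X.eval hK (c i) v

/-- Eigenfunctions. -/
def EquiI (E : AddChar (ZMod m) k) (χ : ι → Fin r → ZMod m)
    (Φ : (ι → FermatPt k r m) → k) : Prop :=
  ∀ (p : ι → FermatPt k r m) (i : ι) (x : Fin r → ZMod m),
    Φ (update p i (tw E x (p i))) = E (∑ j, χ i j * x j) * Φ p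

variable {χ : ι → Fin r → ZMod m} {Φ : (ι → FermatPt k r m) → k}

lemma EquiI.all (he : EquiI E χ Φ) (y : ι → Fin r → ZMod m) (p : ι → FermatPt k r m) :
    Φ (fun i => tw E (y i) (p i)) = E (∑ i, ∑ l, χ i l * y i l) * Φ p := by
  have key : ∀ S : Finset ι, Φ (fun i => if i ∈ S then tw E (y i) (p i) else p i) =
      E (∑ i ∈ S, ∑ l, χ i l * y i l) * Φ p := by
    intro S
    induction S using Finset.induction_on with
    | empty => simp
    | insert i S hi ih =>
      have h1 := he (fun i => if i ∈ S then tw E (y i) (p i) else p i) i (y i)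
      rw [if_neg hi] at h1
      have h2 : update (fun i => if i ∈ S then tw E (y i) (p i) else p i) i (tw E (y i) (p i)) =
          fun j => if j ∈ insert i S then tw E (y j) (p j) else p j := by
        funext j
        by_cases hj : j = i
        · subst hj; simp
        · rw [update_of_ne hj]
          simp [Finset.mem_insert, hj]
      rw [h2] at h1
      rw [h1, ih, Finset.sum_insert hi, AddChar.map_add_eq_mul, mul_assoc]
  have := key Finset.univ
  simpa using this

lemma EquiI.zero_coord (hE : IsFull E) (he : EquiI E χ Φ) {p : ι → FermatPt k r m} {i : ι}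
    {l : Fin r} (hl : χ i l ≠ 0) {a : Fin r → k} {ha : a ≠ 0} {h' : ∑ j, a j ^ m = 0}
    (hp : p i = pt a ha h') (hal : a l = 0) : Φ p = 0 := by
  have h1 : Equi E (χ i) (fun x => Φ (update p i x)) := by
    intro x y
    have := he (update p i y) i x
    rw [update_self, update_idem] at this
    exact this
  have h2 := h1.zero_coord hE hl ha h' hal
  beta_reduce at h2
  rw [← hp, update_eq_self] at h2
  exact h2

/-- The path in the product of the Fermat hypersurfaces. -/
theorem torus_path (hE : IsFull E) (hk : Kills (vpi (fermat k r m) ι) Φ) (he : EquiI E χ Φ)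
    (P : ι → Fin r → Option ι) (hsum : ∀ c, ∑ i, ∑ l with P i l = c, χ i l = 0)
    (R : ι → Fin r → k[X]) (Λ : Option ι → k[X])
    (hrow : ∀ i, ∑ l, R i l ^ m * Λ (P i l) = 0) {p q : ι → Fin r → k}
    (hp : ∀ i, p i ≠ 0) (hps : ∀ i, ∑ l, p i l ^ m = 0)
    (hq : ∀ i, q i ≠ 0) (hqs : ∀ i, ∑ l, q i l ^ m = 0)
    (h0 : ∀ i l, (R i l).eval 0 = p i l) (h1 : ∀ i l, (R i l).eval 1 = q i l)
    {δ₀ δ₁ : k} (hδ₀ : δ₀ ≠ 0) (hδ₁ : δ₁ ≠ 0) (hΛ₀ : ∀ c, (Λ c).eval 0 = δ₀)
    (hΛ₁ : ∀ c, (Λ c).eval 1 = δ₁) :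
    Φ (fun i => pt (p i) (hp i) (hps i)) = Φ (fun i => pt (q i) (hq i) (hqs i)) := by
  have hm : m ≠ 0 := NeZero.ne m
  obtain ⟨n, ⟨eq⟩⟩ := Finite.exists_equiv_fin (Option ι)
  obtain ⟨K, _, _, τ, y, hK, hτ, hy⟩ := exists_poly_roots (k := k) hm (fun j => Λ (eq.symm j))
  set u : Option ι → K := fun c => y (eq c) with hu
  have hum : ∀ c, u c ^ m = aeval τ (Λ c) := by
    intro c
    rw [hu]
    beta_reduce
    rw [hy, Equiv.symm_apply_apply]
  set U : ι → Fin r → K := fun i l => aeval τ (R i l) * u (P i l) with hU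
  have hUm : ∀ i, ∑ l, U i l ^ m = 0 := by
    intro i
    have e : ∀ l ∈ (Finset.univ : Finset (Fin r)), U i l ^ m =
        aeval τ (R i l ^ m * Λ (P i l)) := by
      intro l _
      rw [hU, map_mul, map_pow, ← hum, ← mul_pow]
    rw [Finset.sum_congr rfl e, ← map_sum, hrow, map_zero]
  -- values
  have hval : ∀ (a : k) (w : ι → Fin r → k) (δ : k), δ ≠ 0 → (∀ i l, (R i l).eval a = w i l) →
      (∀ c, (Λ c).eval a = δ) → ∀ v : Place k K, IsRes v τ a →
      ∃ (x : Option ι → ZMod m) (e : k), e ≠ 0 ∧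
        ∀ i l, IsRes v (U i l) (w i l * (e * E (x (P i l)))) := by
    intro a w δ hδ hw hΛ v hv
    have h2 : ∀ c, ∃ e, IsRes v (u c) e ∧ e ^ m = δ := by
      intro c
      apply exists_res_of_pow hK hm
      rw [hum c, ← hΛ c]
      exact hv.poly
    choose e he1 he2 using h2
    have hen : ∀ c, e c ≠ 0 := by
      intro c h0
      have := he2 c
      rw [h0, zero_pow hm] at this
      exact hδ this.symm
    have h3 : ∀ c, ∃ x : ZMod m, E x = e c / e none := by
      intro c
      apply hE.2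
      rw [div_pow, he2, he2, div_self hδ]
    choose x hx using h3
    refine ⟨x, e none, hen none, fun i l => ?_⟩
    rw [hx, mul_div_cancel₀ _ (hen none), ← hw i l]
    exact (hv.poly).mul (he1 _)
  have hU0 : ∀ i, U i ≠ 0 := by
    intro i
    obtain ⟨v, hv⟩ := exists_place hK hτ
    obtain ⟨x, e, he1, he2⟩ := hval 0 p δ₀ hδ₀ h0 hΛ₀ v (isRes_zero_iff.mpr hv)
    obtain ⟨l, hl⟩ := Function.ne_iff.mp (hp i)
    have h3 := (he2 i l).ne_zero (mul_ne_zero hl (mul_ne_zero he1 (char_ne_zero E _)))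
    exact fun h => h3 (congrFun h l)
  have hfin : ∀ (a : k) (w : ι → Fin r → k) (δ : k), δ ≠ 0 → (∀ i l, (R i l).eval a = w i l) →
      (∀ c, (Λ c).eval a = δ) → ∀ (hw : ∀ i, w i ≠ 0) (hws : ∀ i, ∑ l, w i l ^ m = 0)
      (v : Place k K), IsRes v τ a →
      Φ ((vpi (fermat k r m) ι).eval hK (fun i => pt (U i) (hU0 i) (hUm i)) v) =
        Φ (fun i => pt (w i) (hw i) (hws i)) := by
    intro a w δ hδ hRw hΛ hw hws v hv
    obtain ⟨x, e, he1, he2⟩ := hval a w δ hδ hRw hΛ v hv
    have hne : ∀ i, (fun l => w i l * (e * E (x (P i l)))) ≠ 0 := by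
      intro i h0
      obtain ⟨l, hl⟩ := Function.ne_iff.mp (hw i)
      exact mul_ne_zero hl (mul_ne_zero he1 (char_ne_zero E _)) (congrFun h0 l)
    have hsm : ∀ i, ∑ l, (w i l * (e * E (x (P i l)))) ^ m = 0 := by
      intro i
      have : ∀ l ∈ (Finset.univ : Finset (Fin r)), (w i l * (e * E (x (P i l)))) ^ m =
          w i l ^ m * e ^ m := by
        intro l _
        rw [mul_pow, mul_pow, char_pow, mul_one]
      rw [Finset.sum_congr rfl this, ← Finset.sum_mul, hws, zero_mul]
    have h2 : (vpi (fermat k r m) ι).eval hK (fun i => pt (U i) (hU0 i) (hUm i)) v =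
        fun i => tw E (fun l => x (P i l)) (pt (w i) (hw i) (hws i)) := by
      funext i
      change (fermat k r m).eval hK (pt (U i) (hU0 i) (hUm i)) v = _
      rw [eval_eq hK v (hU0 i) (hUm i) (hne i) (hsm i) (he2 i)]
      exact tw_pt e (fun l => by ring)
    rw [h2, he.all]
    have h3 : ∑ i, ∑ l, χ i l * x (P i l) = 0 := by
      have h4 : ∀ i, ∑ l, χ i l * x (P i l) = ∑ c, (∑ l with P i l = c, χ i l) * x c := by
        intro i
        rw [← Finset.sum_fiberwise_of_maps_to (s := Finset.univ) (t := Finset.univ) (g := P i)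
          (fun _ _ => Finset.mem_univ _)]
        apply Finset.sum_congr rfl
        intro c _
        rw [Finset.sum_mul]
        apply Finset.sum_congr rfl
        intro l hl
        rw [(Finset.mem_filter.mp hl).2]
      rw [Finset.sum_congr rfl (fun i _ => h4 i), Finset.sum_comm]
      apply Finset.sum_eq_zero
      intro c _
      rw [← Finset.sum_mul, hsum c, zero_mul]
    rw [h3, AddChar.map_zero_eq_one, one_mul]
  exact path hk hK (fun i => pt (U i) (hU0 i) (hUm i)) hτ (zero_ne_one (α := k))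
    (fun v hv => hfin 0 p δ₀ hδ₀ h0 hΛ₀ hp hps v hv)
    (fun v hv => hfin 1 q δ₁ hδ₁ h1 hΛ₁ hq hqs v hv)

end VG
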