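import Mathlib
import Pool.Agent.Helper83.VG.Path

/-!
# The torus theorem under the Hall condition
-/

set_option linter.unusedSectionVars false

namespace VG

open VC VP VF Function Polynomial

universe u

variable {k : Type u} [Field k] [IsAlgClosed k] [CharZero k] {m : ℕ} [NeZero m]
  {E : AddChar (ZMod m) k} {r : ℕ} {ι : Type} [Fintype ι] [DecidableEq ι]
  {χ : ι → Fin r → ZMod m} {Φ : (ι → FermatPt k r m) → k}

/-- Sums over cells. -/
lemma sum_cells {R : Type*} [CommRing R] (P : Fin r → Option ι) (f : Fin r → R)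
    (v : Option ι → R) : ∑ c, (∑ l with P l = c, f l) * v c = ∑ l, f l * v (P l) := by
  rw [← Finset.sum_fiberwise_of_maps_to (s := Finset.univ) (t := Finset.univ) (g := P)
    (f := fun l => f l * v (P l)) (fun _ _ => Finset.mem_univ _)]
  apply Finset.sum_congr rfl
  intro c _
  rw [Finset.sum_mul]
  apply Finset.sum_congr rfl
  intro l hl
  rw [(Finset.mem_filter.mp hl).2]

lemma exists_two {r : ℕ} (hr : 3 ≤ r) (l₁ l₂ : Fin r) : ∃ l₃, l₃ ≠ l₁ ∧ l₃ ≠ l₂ := by
  classical
  have h : (({l₁, l₂} : Finset (Fin r))ᶜ).Nonempty := by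
    rw [← Finset.card_pos, Finset.card_compl, Fintype.card_fin]
    have := Finset.card_le_two (a := l₁) (b := l₂)
    omega
  obtain ⟨l, hl⟩ := h
  rw [Finset.mem_compl, Finset.mem_insert, Finset.mem_singleton, not_or] at hl
  exact ⟨l, hl.1, hl.2⟩

theorem hall_zero (hE : IsFull E) (hr : 3 ≤ r) (hk : Kills (vpi (fermat k r m) ι) Φ)
    (he : EquiI E χ Φ) (hne : ∀ i l, χ i l ≠ 0) (P : ι → Fin r → Option ι) (hι : Nonempty ι)
    (hsum : ∀ c, ∑ i, ∑ l with P i l = c, χ i l = 0)
    (hN : ∀ S : Finset ι, S.Nonempty →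
      S.card + 1 ≤ (S.biUnion (fun i => Finset.univ.image (P i))).card)
    (p : ι → FermatPt k r m) : Φ p = 0 := by
  classical
  have hm : m ≠ 0 := NeZero.ne m
  choose p' hp hps hpp using fun i => exists_pt (p i)
  have hpe : p = fun i => pt (p' i) (hp i) (hps i) := funext hpp
  obtain ⟨μ, a, d, hμ, ha, hμs, hd⟩ := exists_tree (fun i => Finset.univ.image (P i)) hN
  -- the tree point
  have h1 : ∀ i, ∃ l, P i l = μ i := fun i => by
    obtain ⟨l, -, hl⟩ := Finset.mem_image.mp (hμ i)
    exact ⟨l, hl⟩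
  have h2 : ∀ i, ∃ l, P i l = a i := fun i => by
    obtain ⟨l, -, hl⟩ := Finset.mem_image.mp (ha i)
    exact ⟨l, hl⟩
  choose l₁ hl₁ using h1
  choose l₂ hl₂ using h2
  have hl : ∀ i, l₁ i ≠ l₂ i := by
    intro i h
    have h3 := hd i
    rw [← hl₁, ← hl₂, h] at h3
    exact lt_irrefl _ h3
  obtain ⟨ε, hε⟩ := exists_root hm (-1 : k)
  let q : ι → Fin r → k := fun i l => if l = l₁ i then 1 else if l = l₂ i then ε else 0
  have q1 : ∀ i, q i (l₁ i) = 1 := fun i => if_pos rfl
  have q2 : ∀ i, q i (l₂ i) = ε := fun i => by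
    change (if l₂ i = l₁ i then (1 : k) else if l₂ i = l₂ i then ε else 0) = ε
    rw [if_neg (hl i).symm, if_pos rfl]
  have q3 : ∀ i l, l ≠ l₁ i → l ≠ l₂ i → q i l = 0 := fun i l h h' => by
    change (if l = l₁ i then (1 : k) else if l = l₂ i then ε else 0) = 0
    rw [if_neg h, if_neg h']
  have hqv : ∀ i (v : Fin r → k), ∑ l, q i l ^ m * v l = v (l₁ i) - v (l₂ i) := by
    intro i v
    rw [← Finset.add_sum_erase _ _ (Finset.mem_univ (l₁ i)),
      ← Finset.add_sum_erase _ _ (Finset.mem_erase.mpr ⟨(hl i).symm, Finset.mem_univ (l₂ i)⟩),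
      Finset.sum_eq_zero, q1, q2, hε]
    · ring
    · intro l hl'
      rw [Finset.mem_erase, Finset.mem_erase] at hl'
      rw [q3 i l hl'.2.1 hl'.1, zero_pow hm, zero_mul]
  have hq : ∀ i, q i ≠ 0 := by
    intro i h
    have := q1 i
    rw [h] at this
    exact zero_ne_one this
  have hqs : ∀ i, ∑ l, q i l ^ m = 0 := by
    intro i
    have := hqv i (fun _ => 1)
    simpa using this
  -- a curve through `p`
  choose l₀ hl₀ using fun i => Function.ne_iff.mp (hp i)
  let L : ι → Fin r → k[X] := fun i l => lin (p' i l) (q i l)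
  let A : ι → k[X] := fun i => -∑ l ∈ Finset.univ.erase (l₀ i), L i l ^ m
  have hA0 : ∀ i, p' i (l₀ i) ^ m = (A i).eval 0 := by
    intro i
    have h3 := hps i
    rw [← Finset.add_sum_erase _ _ (Finset.mem_univ (l₀ i))] at h3
    change _ = (-∑ l ∈ Finset.univ.erase (l₀ i), L i l ^ m).eval 0
    rw [eval_neg, eval_finsetSum]
    simp only [L, eval_pow, lin_zero]
    linear_combination h3
  have hA1 : ∀ i, (A i).eval 1 = q i (l₀ i) ^ m := by
    intro i
    have h3 := hqs i
    rw [← Finset.add_sum_erase _ _ (Finset.mem_univ (l₀ i))] at h3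
    change (-∑ l ∈ Finset.univ.erase (l₀ i), L i l ^ m).eval 1 = _
    rw [eval_neg, eval_finsetSum]
    simp only [L, eval_pow, lin_one]
    linear_combination -h3
  let B : ι → Fin r → k[X] := fun i l => if l = l₀ i then A i else L i l ^ m
  have hB1 : ∀ i l, (B i l).eval 1 = q i l ^ m := by
    intro i l
    change (if l = l₀ i then A i else L i l ^ m).eval 1 = _
    by_cases h : l = l₀ i
    · rw [if_pos h, hA1, h]
    · rw [if_neg h]; simp only [L, eval_pow, lin_one]
  have hBs : ∀ i, ∑ l, B i l = 0 := by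
    intro i
    rw [← Finset.add_sum_erase _ _ (Finset.mem_univ (l₀ i))]
    have e1 : B i (l₀ i) = A i := if_pos rfl
    have e2 : ∑ l ∈ Finset.univ.erase (l₀ i), B i l =
        ∑ l ∈ Finset.univ.erase (l₀ i), L i l ^ m := by
      apply Finset.sum_congr rfl
      intro l hl'
      exact if_neg (Finset.ne_of_mem_erase hl')
    rw [e1, e2]
    exact neg_add_cancel _
  let MB : ι → Option ι → k[X] := fun i c => ∑ l with P i l = c, B i l
  let D : k[X] := lam MB none
  have hMB : ∀ i, ∑ c, MB i c = 0 := by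
    intro i
    have := sum_cells (P i) (B i) (fun _ => (1 : k[X]))
    simp only [mul_one] at this
    rw [← hBs i]
    exact this
  have hDc : ∀ c, lam MB c = D := fun c => lam_const hMB c none
  let Mq : ι → Option ι → k := fun i c => ∑ l with P i l = c, q i l ^ m
  have hMq : lam Mq none ≠ 0 := by
    refine lam_tree hμs hd (fun i v => ?_)
    have := sum_cells (P i) (fun l => q i l ^ m) v
    rw [hqv i (fun l => v (P i l)), hl₁, hl₂] at this
    exact this
  have hD1 : ∀ c, (lam MB c).eval 1 = lam Mq c := by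
    intro c
    have := lam_map (Polynomial.evalRingHom (1 : k)) MB c
    rw [coe_evalRingHom] at this
    rw [this]
    congr 1
    funext i c'
    change (∑ l with P i l = c', B i l).eval 1 = _
    rw [eval_finsetSum]
    exact Finset.sum_congr rfl (fun l _ => hB1 i l)
  have hD0 : D ≠ 0 := poly_ne_zero (a := 1) (by rw [hD1]; exact hMq)
  obtain ⟨e, D', hDe, hD'⟩ : ∃ (e : ℕ) (D' : k[X]), D = X ^ e * D' ∧ D'.eval 0 ≠ 0 := by
    obtain ⟨D', h3, h4⟩ := Polynomial.exists_eq_pow_rootMultiplicity_mul_and_not_dvd D hD0 0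
    rw [C_0, sub_zero] at h3 h4
    refine ⟨_, D', h3, fun h5 => h4 ?_⟩
    rw [X_dvd_iff, coeff_zero_eq_eval_zero, h5]
  -- the approximation
  choose ρ hρ hρ' using fun i => exists_approx hm (A i) (hl₀ i) (hA0 i) e
  let R : ι → Fin r → k[X] := fun i l => if l = l₀ i then
    ρ i + C (q i (l₀ i) - (ρ i).eval 1) * X ^ (e + 1) else L i l
  have hR0 : ∀ i l, (R i l).eval 0 = p' i l := by
    intro i l
    change (if l = l₀ i then ρ i + C (q i (l₀ i) - (ρ i).eval 1) * X ^ (e + 1)
      else L i l).eval 0 = _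
    by_cases h : l = l₀ i
    · rw [if_pos h, eval_add, hρ, h]; simp
    · rw [if_neg h]; exact lin_zero _ _
  have hR1 : ∀ i l, (R i l).eval 1 = q i l := by
    intro i l
    change (if l = l₀ i then ρ i + C (q i (l₀ i) - (ρ i).eval 1) * X ^ (e + 1)
      else L i l).eval 1 = _
    by_cases h : l = l₀ i
    · rw [if_pos h, h]; simp
    · rw [if_neg h]; exact lin_one _ _
  have hRB : ∀ i l, X ^ (e + 1) ∣ R i l ^ m - B i l := by
    intro i l
    change X ^ (e + 1) ∣ (if l = l₀ i then ρ i + C (q i (l₀ i) - (ρ i).eval 1) * X ^ (e + 1)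
      else L i l) ^ m - (if l = l₀ i then A i else L i l ^ m)
    by_cases h : l = l₀ i
    · rw [if_pos h, if_pos h]
      have h3 := sub_dvd_pow_sub_pow (ρ i + C (q i (l₀ i) - (ρ i).eval 1) * X ^ (e + 1)) (ρ i) m
      rw [add_sub_cancel_left] at h3
      have h4 := (Dvd.intro_left _ rfl : X ^ (e + 1) ∣
        C (q i (l₀ i) - (ρ i).eval 1) * X ^ (e + 1)).trans h3
      have h5 := dvd_add h4 (hρ' i)
      rwa [sub_add_sub_cancel] at h5
    · rw [if_neg h, if_neg h, sub_self]; exact dvd_zero _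
  let M : ι → Option ι → k[X] := fun i c => ∑ l with P i l = c, R i l ^ m
  have hM : ∀ i c, X ^ (e + 1) ∣ M i c - MB i c := by
    intro i c
    change X ^ (e + 1) ∣ (∑ l with P i l = c, R i l ^ m) - ∑ l with P i l = c, B i l
    rw [← Finset.sum_sub_distrib]
    exact Finset.dvd_sum (fun l _ => hRB i l)
  have hlam : ∀ c, X ^ (e + 1) ∣ lam M c - D := by
    intro c
    rw [← hDc c, ← Ideal.mem_span_singleton, ← Ideal.Quotient.eq, lam_map, lam_map]
    congr 1
    funext i c'
    rw [Ideal.Quotient.eq, Ideal.mem_span_singleton]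
    exact hM i c'
  choose G hG using hlam
  let Λ : Option ι → k[X] := fun c => D' + X * G c
  have hΛ : ∀ c, lam M c = X ^ e * Λ c := by
    intro c
    have h3 := hG c
    change lam M c = X ^ e * (D' + X * G c)
    rw [hDe] at h3
    linear_combination h3
  have hrow : ∀ i, ∑ l, R i l ^ m * Λ (P i l) = 0 := by
    intro i
    have h3 := row_lam M i
    rw [sum_cells (P i) (fun l => R i l ^ m) (lam M)] at h3
    apply mul_left_cancel₀ (pow_ne_zero e (X_ne_zero (R := k)))
    rw [mul_zero, ← h3, Finset.mul_sum]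
    apply Finset.sum_congr rfl
    intro l _
    rw [hΛ]; ring
  have hΛ0 : ∀ c, (Λ c).eval 0 = D'.eval 0 := by
    intro c
    change (D' + X * G c).eval 0 = _
    simp
  have hMq' : ∀ c, lam Mq c = lam Mq none := by
    intro c
    rw [← hD1, ← hD1, hDc c]
  have hΛ1 : ∀ c, (Λ c).eval 1 = lam Mq none := by
    intro c
    have h3 := congrArg (Polynomial.eval 1) (hΛ c)
    rw [eval_mul, eval_pow, eval_X, one_pow, one_mul] at h3
    rw [← h3, ← hMq' c]
    have h4 := lam_map (Polynomial.evalRingHom (1 : k)) M c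
    rw [coe_evalRingHom] at h4
    rw [h4]
    congr 1
    funext i c'
    change (∑ l with P i l = c', R i l ^ m).eval 1 = _
    rw [eval_finsetSum]
    exact Finset.sum_congr rfl (fun l _ => by rw [eval_pow, hR1])
  rw [hpe, torus_path hE hk he P hsum R Λ hrow hp hps hq hqs hR0 hR1 hD' hMq hΛ0 hΛ1]
  obtain ⟨i⟩ := hι
  obtain ⟨l, hl', hl''⟩ := exists_two hr (l₁ i) (l₂ i)
  exact he.zero_coord hE (i := i) (hne i l) rfl (q3 i l hl' hl'')

end VG
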