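import Mathlib
import Pool.Agent.Helper83.VG.Hall
import Pool.Agent.Helper83.VF.Main
import Pool.Agent.Helper75.Zss.Index

/-!
# The torus theorem and the classification of characters
-/

set_option linter.unusedSectionVars false

namespace VG

open VC VP VF Function

universe u

variable {k : Type u} [Field k] [IsAlgClosed k] [CharZero k] {m : ℕ} [NeZero m]
  {E : AddChar (ZMod m) k} {r : ℕ}

section extend

variable {ι : Type} [Fintype ι] [DecidableEq ι] (S : Finset ι)

/-- Extension of a family of points. -/
def extendPt {α : Type u} (p : ι → α) (p' : {i // i ∉ S} → α) : ι → α :=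
  fun i => if h : i ∉ S then p' ⟨i, h⟩ else p i

lemma extendPt_self {α : Type u} (p : ι → α) : extendPt S p (fun i => p i.1) = p := by
  funext i
  unfold extendPt
  split_ifs <;> rfl

lemma extendPt_update {α : Type u} (p : ι → α) (p' : {i // i ∉ S} → α) (i : {i // i ∉ S})
    (x : α) : extendPt S p (update p' i x) = update (extendPt S p p') i.1 x := by
  funext j
  by_cases hj : j = i.1
  · subst hj
    rw [update_self]
    unfold extendPt
    rw [dif_pos i.2, update_self]
  · rw [update_of_ne hj]
    unfold extendPt
    by_cases h : j ∉ S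
    · rw [dif_pos h, dif_pos h, update_of_ne]
      intro h'
      exact hj (congrArg Subtype.val h')
    · rw [dif_neg h, dif_neg h]

lemma induced_extend (p : ι → FermatPt k r m) :
    Induced (vpi (fermat k r m) {i // i ∉ S}) (vpi (fermat k r m) ι) (extendPt S p) := by
  intro K _ _ hK c
  choose d hd using fun i => fermat_const K hK (p i)
  refine ⟨extendPt S d c, fun v => ?_⟩
  change (fun i => (fermat k r m).eval hK (extendPt S d c i) v) =
    extendPt S p (fun i => (fermat k r m).eval hK (c i) v)
  funext i
  unfold extendPt
  by_cases h : i ∉ S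
  · rw [dif_pos h, dif_pos h]
  · rw [dif_neg h, dif_neg h, hd]

end extend

theorem torus_aux (hE : IsFull E) (hr : 3 ≤ r) : ∀ n : ℕ, ∀ (ι : Type) [Fintype ι]
    [DecidableEq ι] [Nonempty ι], Fintype.card ι = n → ∀ {χ : ι → Fin r → ZMod m}
    {Φ : (ι → FermatPt k r m) → k}, Kills (vpi (fermat k r m) ι) Φ → EquiI E χ Φ →
    (∀ i l, χ i l ≠ 0) → (∀ i, ∑ l, χ i l = 0) → ∀ P : ι → Fin r → Option ι,
    (∀ c, ∃ i l, P i l = c) → (∀ c, ∑ i, ∑ l with P i l = c, χ i l = 0) →
    ∀ p : ι → FermatPt k r m, Φ p = 0 := by
  intro n
  induction n using Nat.strong_induction_on with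
  | _ n IH =>
    intro ι _ _ _ hn χ Φ hk he hne hrow P hP hsum p
    classical
    by_cases hN : ∀ S : Finset ι, S.Nonempty →
      S.card + 1 ≤ (S.biUnion (fun i => Finset.univ.image (P i))).card
    · exact hall_zero hE hr hk he hne P inferInstance hsum hN p
    push Not at hN
    obtain ⟨S, hS, hS'⟩ := hN
    set T := S.biUnion (fun i => Finset.univ.image (P i)) with hT
    have memT : ∀ c, c ∈ T ↔ ∃ i ∈ S, ∃ l, P i l = c := by
      intro c
      simp [hT]
    have hcard : (Finset.univ : Finset (Option ι)).card = Fintype.card ι + 1 := by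
      rw [Finset.card_univ, Fintype.card_option]
    have hSne : ∃ i, i ∉ S := by
      by_contra hcon
      push Not at hcon
      have h1 : T = Finset.univ := by
        rw [Finset.eq_univ_iff_forall]
        intro c
        obtain ⟨i, l, hil⟩ := hP c
        exact (memT c).mpr ⟨i, hcon i, l, hil⟩
      have h2 : S.card ≤ Fintype.card ι := Finset.card_le_univ S
      rw [h1, hcard] at hS'
      have h3 : S = Finset.univ := Finset.eq_univ_iff_forall.mpr hcon
      rw [h3, Finset.card_univ] at hS'
      omega
    obtain ⟨i₀, hi₀⟩ := hSne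
    have : Nonempty {i // i ∉ S} := ⟨⟨i₀, hi₀⟩⟩
    have hcard' : Fintype.card {i // i ∉ S} = Fintype.card ι - S.card := by
      rw [Fintype.card_subtype_compl, Fintype.card_coe]
    have hSle : S.card ≤ Fintype.card ι := Finset.card_le_univ S
    have hTle : T.card ≤ Fintype.card ι + 1 := by rw [← hcard]; exact Finset.card_le_card (Finset.subset_univ _)
    have hcol : Fintype.card (Option {i // i ∉ S}) ≤ Fintype.card {c // c ∉ T} := by
      rw [Fintype.card_option, hcard', Fintype.card_subtype_compl, Fintype.card_coe,
        Fintype.card_option]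
      omega
    obtain ⟨g⟩ := Function.Embedding.nonempty_of_card_le hcol
    let f₀ : {c // c ∉ T} → Option {i // i ∉ S} := Function.invFun g
    have hf₀ : ∀ o, f₀ (g o) = o := Function.leftInverse_invFun g.injective
    let f : Option ι → Option {i // i ∉ S} := fun c => if h : c ∉ T then f₀ ⟨c, h⟩ else none
    have hfT : ∀ c, c ∈ T → f c = none := fun c hc => dif_neg (fun h => h hc)
    have hfg : ∀ o, f (g o).1 = o := by
      intro o
      have h1 : f (g o).1 = f₀ ⟨(g o).1, (g o).2⟩ := dif_pos (g o).2
      rw [h1]
      exact hf₀ o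
    -- weights
    let w : Option ι → ZMod m := fun c => ∑ i : {i // i ∉ S}, ∑ l with P i.1 l = c, χ i.1 l
    have hw0 : ∀ c, c ∉ T → w c = 0 := by
      intro c hc
      have h1 := hsum c
      rw [← Fintype.sum_subtype_add_sum_subtype (fun i => i ∉ S)] at h1
      have h2 : ∑ i : {i // ¬ i ∉ S}, ∑ l with P i.1 l = c, χ i.1 l = 0 := by
        apply Finset.sum_eq_zero
        intro i _
        apply Finset.sum_eq_zero
        intro l hl
        exfalso
        exact hc ((memT c).mpr ⟨i.1, not_not.mp i.2, l, (Finset.mem_filter.mp hl).2⟩)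
      rw [h2, add_zero] at h1
      exact h1
    have hws : ∑ c, w c = 0 := by
      change ∑ c, ∑ i : {i // i ∉ S}, ∑ l with P i.1 l = c, χ i.1 l = 0
      rw [Finset.sum_comm]
      apply Finset.sum_eq_zero
      intro i _
      have := sum_cells (P i.1) (χ i.1) (fun _ => (1 : ZMod m))
      simp only [mul_one] at this
      rw [this, hrow]
    have hcard1 : Fintype.card {i // i ∉ S} < n := by
      rw [hcard', ← hn]
      have := Finset.card_pos.mpr hS
      omega
    have key := IH _ hcard1 {i // i ∉ S} rfl (χ := fun i => χ i.1)
      (Φ := fun p' => Φ (extendPt S p p')) (hk.comp (induced_extend S p)) (by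
        intro p' i x
        beta_reduce
        rw [extendPt_update]
        have h1 := he (extendPt S p p') i.1 x
        have h2 : extendPt S p p' i.1 = p' i := by
          unfold extendPt
          rw [dif_pos i.2]
        rw [h2] at h1
        exact h1) (fun i l => hne i.1 l) (fun i => hrow i.1) (fun i l => f (P i.1 l)) (by
        intro o
        obtain ⟨i, l, hil⟩ := hP (g o).1
        have hi : i ∉ S := fun h => (g o).2 ((memT _).mpr ⟨i, h, l, hil⟩)
        exact ⟨⟨i, hi⟩, l, by rw [hil]; exact hfg o⟩) (by
        intro o
        have h1 : ∑ i : {i // i ∉ S}, ∑ l with f (P i.1 l) = o, χ i.1 l =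
            ∑ c with f c = o, w c := by
          change _ = ∑ c with f c = o, ∑ i : {i // i ∉ S}, ∑ l with P i.1 l = c, χ i.1 l
          rw [Finset.sum_comm]
          apply Finset.sum_congr rfl
          intro i _
          rw [← Finset.sum_fiberwise_of_maps_to (s := Finset.univ.filter (fun l => f (P i.1 l) = o))
            (t := Finset.univ.filter (fun c => f c = o)) (g := P i.1)
            (fun l hl => Finset.mem_filter.mpr ⟨Finset.mem_univ _, (Finset.mem_filter.mp hl).2⟩)]
          apply Finset.sum_congr rfl
          intro c hc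
          apply Finset.sum_congr _ (fun _ _ => rfl)
          ext l
          simp only [Finset.mem_filter, Finset.mem_univ, true_and]
          constructor
          · exact fun h => h.2
          · intro h
            refine ⟨?_, h⟩
            rw [h]
            exact (Finset.mem_filter.mp hc).2
        rw [h1]
        have hnn : ∀ o, o ≠ none → ∑ c with f c = o, w c = 0 := by
          intro o ho
          apply Finset.sum_eq_zero
          intro c hc
          apply hw0
          intro hcT
          exact ho (by rw [← (Finset.mem_filter.mp hc).2, hfT c hcT])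
        by_cases ho : o = none
        · subst ho
          have h2 : ∑ c, w c = ∑ o, ∑ c with f c = o, w c :=
            (Finset.sum_fiberwise_of_maps_to (fun _ _ => Finset.mem_univ _) _).symm
          rw [hws, ← Finset.add_sum_erase _ _ (Finset.mem_univ (none : Option {i // i ∉ S})),
            Finset.sum_eq_zero (s := Finset.univ.erase none), add_zero] at h2
          · exact h2.symm
          · intro o ho
            exact hnn o (Finset.ne_of_mem_erase ho)
        · exact hnn o ho) (fun i => p i.1)
    rw [extendPt_self] at key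
    exact key

/-- **Torus theorem.** If the entries of the characters split into `s + 1` parts of sum zero then
the corresponding part of the Chow group of zero-cycles of the `s`-th power of the Fermat
hypersurface is zero. -/
theorem torus_zero (hE : IsFull E) (hr : 3 ≤ r) {s : ℕ} (hs : 0 < s)
    {χ : Fin s → Fin r → ZMod m} {Φ : (Fin s → FermatPt k r m) → k}
    (hk : Kills ((fermat k r m).pow s) Φ) (he : EquiS E χ Φ) (hne : ∀ i l, χ i l ≠ 0)
    (hrow : ∀ i, ∑ l, χ i l = 0) (P : Fin s → Fin r → Fin (s + 1)) (hP : ∀ c, ∃ i l, P i l = c)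
    (hsum : ∀ c, ∑ i, ∑ l with P i l = c, χ i l = 0) (p : Fin s → FermatPt k r m) : Φ p = 0 := by
  have : Nonempty (Fin s) := ⟨⟨0, hs⟩⟩
  obtain ⟨e⟩ : Nonempty (Fin (s + 1) ≃ Option (Fin s)) := by
    rw [← Fintype.card_eq]
    simp
  refine torus_aux hE hr s (Fin s) (Fintype.card_fin s) hk he hne hrow (fun i l => e (P i l)) ?_ ?_
    p
  · intro c
    obtain ⟨i, l, h⟩ := hP (e.symm c)
    exact ⟨i, l, by rw [h, Equiv.apply_symm_apply]⟩
  · intro c
    rw [← hsum (e.symm c)]
    apply Finset.sum_congr rfl
    intro i _
    apply Finset.sum_congr _ (fun _ _ => rfl)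
    ext l
    simp [Equiv.eq_symm_apply]

end VG
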